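import Pool.Agent.P.MP_f12b6c_an.Cubic

namespace Pool.Agent.P.MP_f12b6c_an.Old.SignChange

open Pool.Agent.P.MP_f12b6c_an
open scoped RealInnerProductSpace

/-- Obstructions to homogeneous singular solutions of degree in `(1,2)`. -/
theorem result :
    (∀ (n : ℕ) (lam Lam β : ℝ) (F : Mat n → ℝ) (u : E n → ℝ), 0 < lam → lam ≤ Lam →
      UnifElliptic lam Lam F → IsViscSol F u → ContDiffOn ℝ 2 u {0}ᶜ → 1 < β → β < 2 →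
      (∀ x, ∀ t : ℝ, 0 < t → u (t • x) = t ^ β * u x) →
      (∀ e ξ : E n, e ≠ 0 → ξ ≠ 0 →
        (∀ x, x ≠ 0 → ⟪ξ, x⟫ = 0 → 0 ≤ fderiv ℝ u x e) → ∀ x, u x = 0) ∧
      (∀ ξ : E n, ‖ξ‖ = 1 →
        ((∀ x, u (x - (2 * ⟪ξ, x⟫) • ξ) = u x) ∨
          (2 ≤ n ∧ ∀ x, u (x - (2 * ⟪ξ, x⟫) • ξ) = -u x)) → ∀ x, u x = 0)) ∧
    (∀ (lam Lam δ : ℝ) (F : Mat 3 → ℝ) (c : Fin 3 → Fin 3 → Fin 3 → ℝ), 0 < lam → lam ≤ Lam →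
      UnifElliptic lam Lam F → 1 < δ → δ < 2 →
      IsViscSol F (fun x => cubic c x / ‖x‖ ^ δ) → ∀ x, cubic c x = 0) :=
  ⟨fun _ _ _ _ _ _ h1 h2 h3 h4 h5 h6 h7 h8 =>
    ⟨fun _ _ he hξ hH => sign_change h1 h2 h3 h4 h5 h6 h7 h8 he hξ hH,
      fun _ hξ hs => no_reflection h1 h2 h3 h4 h5 h6 h7 h8 hξ hs⟩,
    fun _ _ _ _ c h1 h2 h3 h4 h5 h6 => no_cubic c h1 h2 h3 h4 h5 h6⟩

end Pool.Agent.P.MP_f12b6c_an.Old.SignChange
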