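import Pool.Agent.P.MP_f12b6c_an.S4All
import Pool.Agent.P.MP_f12b6c_an.S4F
import Pool.Agent.P.MP_f12b6c_an.S4Visc
import Pool.Agent.P.MP_f12b6c_an.S4Zero
import Pool.Agent.P.MP_f12b6c_an.S4Sym
import Pool.Agent.P.MP_f12b6c_an.S4Bridge

/-!
A singular viscosity solution of a uniformly elliptic equation `F(D²u) = 0` in dimension four.
-/

namespace Pool.Agent.P.MP_f12b6c_an.Old.Singular4

open Pool.Agent.P.MP_f12b6c_an

/-- There is a uniformly elliptic `F` on symmetric `4 × 4` matrices such that the explicit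
function `U4` is a viscosity solution of `F(D²u) = 0` in the unit ball of `ℝ⁴`, and `U4` is not
`C²` in any neighbourhood of the origin. -/
theorem result : ∃ (lam Lam : ℝ) (F : Mat 4 → ℝ), 0 < lam ∧ lam ≤ Lam ∧ UnifElliptic lam Lam F ∧
    IsViscSol F U4 ∧ ∀ r : ℝ, 0 < r → ¬ ContDiffOn ℝ 2 U4 (Metric.ball 0 r) := by
  have hp : ∀ x y : E 4, x ≠ 0 → y ≠ 0 → Pair x y := by
    refine pair_all fun x y hx hy => pair_of_pairOK x y ?_ hy (slice_pair x y hx hy)
    rintro rfl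
    rcases hx with h | h
    · exact absurd h.2.1 (by simp)
    · exact absurd h.2.1 (by simp)
  obtain ⟨lam, Lam, F, h1, h2, h3, h4⟩ := exists_F {N | ∃ x : E 4, x ≠ 0 ∧ N = hess U4 x}
    ⟨_, EuclideanSpace.single 0 1, by simp, rfl⟩ 65536 (by
      rintro _ ⟨x, hx, rfl⟩ _ ⟨y, hy, rfl⟩
      exact hp x y hx hy)
  refine ⟨lam, Lam, F, h1, h2, h3, visc_of_classical h1 h3 U4_continuous U4_contDiffAt
    (fun x hx => h4 _ ⟨x, hx, rfl⟩) U4_not_max U4_not_min, fun r hr h => ?_⟩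
  refine U4_not_max U4 (h.contDiffAt (Metric.ball_mem_nhds 0 hr)) ?_
  simp only [sub_self]
  exact isLocalMax_const

end Pool.Agent.P.MP_f12b6c_an.Old.Singular4
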